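import Pool.Agent.H896.SG.Max

/-!
# MP_d9f52e_nt: Stark's conjecture over complex cubic fields, ray class groups of exponent two

Let `K` be a complex cubic field, `𝔣` an ideal, `S` the archimedean places and the prime ideals which
divide `𝔣`, and `H / K` an abelian extension of exponent two, unramified outside `S`. The theorem: Q1
(Stark's conjecture) is true for `H / K`, if

(a) some prime ideal above two is unramified in `H`, or
(b) `#Σ ≤ 2 ^ (#S - 1)`, `Σ` generated by the decomposition groups of the places of `S`, or
(c) `√x ∉ H K'` for some `x ∈ K^*` with even valuations at the prime ideals which are unramified in `H`,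
where `K'` is the maximal abelian extension of `K` which is unramified at all places and in which the
prime ideals ramified in `H` are totally split.

So for each set of ramified prime ideals only the fields `H` are left such that `H K'` contains all these
square roots; if `K'` has odd degree (for example, if the class number of `K` is odd), this is only one
field `H`.

The proof of (c): the Kummer group `V` of `H / K` is isotropic for the sum of the Hilbert symbols, and
`x` is orthogonal to `V`; so `2 (#Σ)² ≤ ∏ # (K_v^* / K_v^{*2})`, the product over the places ramified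
in `H`; otherwise `x y` is for some `y ∈ V` a square at all these places, and `K(√(x y)) ⊆ K'`. The rest is
the boundary theorem of helper509 (`Pool/Agent/H509`).
-/

set_option autoImplicit false

open NumberField IsDedekindDomain

noncomputable section

namespace Pool.Agent.Results.MP_d9f52e_nt.ExponentTwo

open Pool.Agent.N598.ST (Place Over nabs Unram IsArtin IsZeta AbRoot W Data TotallySplit)
open Pool.Agent.N820.RS (IsModulus)
open Pool.Agent.H896.SE (UnramifiedEverywhere)

/-- `K` is a complex cubic field: exactly one real and exactly one complex place. -/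
structure IsComplexCubic (K : Type) [Field K] [NumberField K] : Prop where
  real : InfinitePlace.nrRealPlaces K = 1
  complex : InfinitePlace.nrComplexPlaces K = 1

/-- the place `w` of `H` lies above the complex place of `K` -/
def AboveComplex (K H : Type) [Field K] [NumberField K] [Field H] [NumberField H] [Algebra K H] :
    Place H → Prop
  | Sum.inl w => (w.comap (algebraMap K H)).IsComplex
  | Sum.inr _ => False

/-- The valuation of `x` at the prime ideal `q` is even: it is the valuation of a square. -/
def EvenAt {K : Type} [Field K] [NumberField K] (q : HeightOneSpectrum (𝓞 K)) (x : K) : Prop :=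
  ∃ y : K, q.valuation K x = q.valuation K y ^ 2

/-- `√x` is not in `H K'`, where `K'` is the maximal abelian extension of `K` which is unramified at all
places and in which the prime ideals ramified in `H` are totally split: if `y ∈ K^*` is a square in `H`,
then `x y` is not a square in a finite extension `E ⊆ K'` of `K`. -/
def RootNotIn (K H : Type) [Field K] [NumberField K] [Field H] [NumberField H] [Algebra K H]
    (x : K) : Prop :=
  ∀ (E : Type) [Field E] [NumberField E] [Algebra K E] [IsAbelianGalois K E],
    UnramifiedEverywhere K E →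
    (∀ q : HeightOneSpectrum (𝓞 K), ¬ Unram K H q → TotallySplit K E (Sum.inr q)) →
    ∀ (y : K) (b : H) (e : E), y ≠ 0 → b ^ 2 = algebraMap K H y → e ^ 2 ≠ algebraMap K E (x * y)

/-- **Stark's conjecture over complex cubic fields, exponent two.** -/
theorem result (K : Type) [Field K] [NumberField K] (hK : IsComplexCubic K) (𝔣 : Ideal (𝓞 K))
    (hf0 : 𝔣 ≠ ⊥) (hf1 : 𝔣 ≠ ⊤) (S : Finset (Place K)) (hS : IsModulus 𝔣 S)
    (H : Type) [Field H] [NumberField H] [Algebra K H] [IsAbelianGalois K H]
    (h2 : ∀ g : Gal(H/K), g * g = 1)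
    (hu : ∀ q : HeightOneSpectrum (𝓞 K), ¬ 𝔣 ≤ q.asIdeal → Unram K H q)
    (h : (∃ q : HeightOneSpectrum (𝓞 K), (2 : 𝓞 K) ∈ q.asIdeal ∧ Unram K H q) ∨
      Nat.card (Subgroup.closure {g : Gal(H/K) | ∃ q ∈ S, ∃ Q : Place H, Over K H Q q ∧
        ∀ x : H, nabs Q (g x) = nabs Q x}) ≤ 2 ^ (S.card - 1) ∨
      ∃ x : K, x ≠ 0 ∧ (∀ q : HeightOneSpectrum (𝓞 K), Unram K H q → EvenAt q x) ∧
        RootNotIn K H x)
    (v : InfinitePlace H) (hv : AboveComplex K H (Sum.inl v))
    (a : Ideal (𝓞 K) → Gal(H/K)) (ha : IsArtin S a) (ζ : Gal(H/K) → ℂ → ℂ)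
    (hζ : ∀ ρ, IsZeta S a ρ (ζ ρ)) :
    ∃ u : Hˣ,
      (∀ w : Place H, ¬ AboveComplex K H w → nabs w (u : H) = 1) ∧
      (∀ ρ : Gal(H/K), deriv (ζ ρ) 0 = -(1 / W H) * (Real.log (nabs (Sum.inl v) (ρ (u : H))) : ℝ)) ∧
      AbRoot K (W H) (u : H) := by
  have hc : Fintype.card (InfinitePlace K) = InfinitePlace.nrRealPlaces K + 1 := by
    rw [InfinitePlace.card_eq_nrRealPlaces_add_nrComplexPlaces, hK.complex]
  have h3 : 3 ≤ S.card := hS.card hf1 (by rw [hc, hK.real]) hf0
  obtain ⟨v₀, h0, h1⟩ := Pool.Agent.N820.RS.exists_complex hK.complex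
  have hvv : v.comap (algebraMap K H) = v₀ := h1 _ hv
  have hD : Data K H S (Sum.inl v₀) :=
    ⟨by omega, hS.inf, fun q hq => hu q fun h => hq ((hS.fin q).2 h), hS.inf _,
      Pool.Agent.N820.RS.split_complex v₀ h0⟩
  have hs := Pool.Agent.H896.SG.stark_d h2 S (Sum.inl v₀) hD (Or.inl h3) (Or.inr h)
  obtain ⟨u, hu0, hlog, hab⟩ := hs (Sum.inl v) hvv a ha ζ hζ
  refine ⟨Units.mk0 u hu0.ne, fun w hw => ?_, fun ρ => ?_, hab⟩
  · obtain ⟨q, hq⟩ := Pool.Agent.N820.RS.exists_under (K := K) w
    by_cases hqS : q ∈ S
    · refine hu0.many h3 q hqS ?_ w hq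
      rintro rfl
      apply hw
      rcases w with w | w
      · have h5 : w.comap (algebraMap K H) = v₀ := hq
        change (w.comap (algebraMap K H)).IsComplex
        rw [h5]
        exact h0
      · exact hq.elim
    · exact hu0.out q hqS w hq
  · have h4 := hlog ρ
    have hW : (W H : ℂ) ≠ 0 := by
      rw [← Pool.Agent.H233.ST.torsion_eq]
      exact_mod_cast (Units.torsionOrder_ne_zero H)
    change deriv (ζ ρ) 0 = -(1 / W H) * ((Real.log (nabs (Sum.inl v) (ρ u)) : ℝ) : ℂ)
    rw [h4]
    field_simp

end Pool.Agent.Results.MP_d9f52e_nt.ExponentTwo
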